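import Pool.Agent.W525.CB.Stm

/-!
# Normality can be checked on affine charts
-/

set_option autoImplicit false

open AlgebraicGeometry CategoryTheory Order

namespace Pool.Agent.W82.CB

open Pool.Agent.H187R3 Pool.Agent.W525.CB

/-- the ring of sections over `U` as a subring of the field -/
noncomputable def secRing {X : Scheme.{0}} [IsIntegral X] {E : Type} [Field E]
    (κ : X.functionField →+* E) (U : X.Opens) (hη : genericPoint X ∈ U) : Subring E :=
  (κ.comp (X.presheaf.germ U (genericPoint X) hη).hom).range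

theorem mem_secRing {X : Scheme.{0}} [IsIntegral X] {E : Type} [Field E]
    (κ : X.functionField →+* E) (U : X.Opens) (hη : genericPoint X ∈ U) (e : E) :
    e ∈ secRing κ U hη ↔ e ∈ secIn κ U := by
  constructor
  · rintro ⟨s, hs⟩
    exact ⟨hη, s, hs⟩
  · rintro ⟨_, s, hs⟩
    exact ⟨s, hs⟩

/-- the algebra: common denominators -/
theorem alg {E : Type} [Field E] (B L : Subring E) (R : Set E)
    (hBR : ∀ b ∈ B, ∀ e ∈ R, b * e ∈ R)
    (hBL : B ≤ L) (hL : ∀ e ∈ L, ∃ b s, b ∈ B ∧ s ∈ B ∧ s ≠ 0 ∧ s⁻¹ ∈ L ∧ e = b / s)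
    (hic : IntClosedIn (B : Set E) R) (e : E) (he : e ∈ R) (q : Polynomial E) (hq : q.Monic)
    (hc : ∀ i, q.coeff i ∈ L) (h0 : q.eval e = 0) : e ∈ L := by
  classical
  choose! b s hb hs hs0 hsi hbs using hL
  obtain ⟨S, hS⟩ : ∃ S : E, S = ∏ i ∈ Finset.range q.natDegree, s (q.coeff i) := ⟨_, rfl⟩
  have hSB : S ∈ B := by rw [hS]; exact Subring.prod_mem _ fun i _ => hs _ (hc i)
  have hS0 : S ≠ 0 := by rw [hS]; exact Finset.prod_ne_zero_iff.2 fun i _ => hs0 _ (hc i)
  have hSi : S⁻¹ ∈ L := by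
    rw [hS, ← Finset.prod_inv_distrib]
    exact Subring.prod_mem _ fun i _ => hsi _ (hc i)
  have hcS : ∀ i < q.natDegree, q.coeff i * S ∈ B := by
    intro i hi
    rw [hS, ← Finset.mul_prod_erase _ _ (Finset.mem_range.2 hi)]
    have h1 : q.coeff i * s (q.coeff i) = b (q.coeff i) :=
      (eq_div_iff (hs0 _ (hc i))).1 (hbs _ (hc i))
    rw [← mul_assoc, h1]
    exact B.mul_mem (hb _ (hc i)) (Subring.prod_mem _ fun j _ => hs _ (hc j))
  have key : S * e ∈ (B : Set E) := by
    refine hic (S * e) (hBR S hSB e he) ⟨q.scaleRoots S, ?_, ?_, ?_⟩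
    · exact (Polynomial.monic_scaleRoots_iff S).2 hq
    · intro i
      rw [Polynomial.coeff_scaleRoots]
      rcases lt_trichotomy i q.natDegree with hi | hi | hi
      · obtain ⟨m, hm⟩ : ∃ m, q.natDegree - i = m + 1 := ⟨q.natDegree - i - 1, by omega⟩
        rw [hm, pow_succ', ← mul_assoc]
        exact B.mul_mem (hcS i hi) (Subring.pow_mem _ hSB m)
      · subst hi
        rw [Nat.sub_self, pow_zero, mul_one]
        have : q.coeff q.natDegree = 1 := hq
        rw [this]
        exact B.one_mem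
      · rw [Polynomial.coeff_eq_zero_of_natDegree_lt hi, zero_mul]
        exact B.zero_mem
    · have h := Polynomial.scaleRoots_eval₂_eq_zero (p := q) (f := RingHom.id E) (r := e) (s := S)
        (by simpa [Polynomial.eval₂_eq_eval_map] using h0)
      simpa [Polynomial.eval₂_eq_eval_map] using h
  have h2 : e = S⁻¹ * (S * e) := by field_simp
  rw [h2]
  exact L.mul_mem hSi (hBL key)

theorem main : S_LOC → S_NORS := by
  intro hloc X _ E _ κ A U haff hη hcov hic x
  obtain ⟨a, ha⟩ := hcov x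
  obtain ⟨h1, h2⟩ := hloc X E κ (U a) (haff a) x ha
  rw [isIntegrallyClosed_iff X.functionField]
  intro φ hφ
  obtain ⟨q, hq, hq0⟩ := hφ
  have hset : (secRing κ (U a) (hη a) : Set E) = secIn κ (U a) := by
    ext e
    exact mem_secRing κ (U a) (hη a) e
  have hL := alg (secRing κ (U a) (hη a)) (locIn κ x) (κ.range : Set E)
    (by
      rintro b ⟨s, rfl⟩ e ⟨ψ, rfl⟩
      exact ⟨X.presheaf.germ (U a) (genericPoint X) (hη a) s * ψ, by
        rw [map_mul]; rfl⟩)
    (by
      intro e he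
      exact h1 ((mem_secRing κ (U a) (hη a) e).1 he))
    (by
      intro e he
      obtain ⟨b, s, hb, hs, hs0, hsi, hbs⟩ := h2 e he
      exact ⟨b, s, (mem_secRing κ (U a) (hη a) b).2 hb, (mem_secRing κ (U a) (hη a) s).2 hs,
        hs0, hsi, hbs⟩)
    (by rw [hset]; exact hic a) (κ φ) ⟨φ, rfl⟩
    (q.map (κ.comp (algebraMap (X.presheaf.stalk x) X.functionField))) (hq.map _)
    (by
      intro i
      rw [Polynomial.coeff_map]
      exact ⟨q.coeff i, rfl⟩)
    (by
      rw [Polynomial.eval_map, ← Polynomial.hom_eval₂, hq0, map_zero])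
  obtain ⟨r, hr⟩ := hL
  refine ⟨r, ?_⟩
  exact κ.injective hr

end Pool.Agent.W82.CB
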